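import Pool.Agent.helper53.DC.SpecH

/-! dc:H3b: fellow travelling. -/

set_option autoImplicit false

namespace Pool.Agent.helper53.DC

theorem H3b : H3b_stmt := by
  intro B W _ M cs δ hH x y x' y' p s hx hy hp h1 h2
  have e1 := hH x x' y p
  have e2 := hH x' y' y p
  have c1 := dd_comm cs y p
  have c2 := dd_comm cs y' y
  have c3 := dd_comm cs x' p
  have c4 := dd_comm cs y' p
  have t1 := dd_tri cs p y' y
  have t2 := dd_tri cs x' p y'
  have t3 := dd_tri cs p x' y'
  have t4 := dd_tri cs p y' x'
  have c5 := dd_comm cs y' x'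
  have hk1 : dd cs p y + dd cs x' p ≤ dd cs x' y + 2 * δ := by
    rcases le_total (dd cs x x' + dd cs y p) (dd cs x p + dd cs x' y) with h | h
    · rw [max_eq_right h] at e1; omega
    · rw [max_eq_left h] at e1; omega
  have hk2 : dd cs x' p + dd cs y' p ≤ dd cs x' y' + 4 * δ := by
    rcases le_total (dd cs x' y' + dd cs y p) (dd cs x' p + dd cs y' y) with h | h
    · rw [max_eq_right h] at e2; omega
    · rw [max_eq_left h] at e2; omega
  obtain ⟨q, hq1, hq2⟩ := exists_geo cs x' y' ((dd cs x' y' + dd cs x' p - dd cs y' p) / 2) (by omega)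
  refine ⟨q, by omega, ?_⟩
  have e3 := hH p x' q y'
  rcases le_total (dd cs p x' + dd cs q y') (dd cs p y' + dd cs x' q) with h | h
  · rw [max_eq_right h] at e3; omega
  · rw [max_eq_left h] at e3; omega

end Pool.Agent.helper53.DC
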