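import Pool.Agent.helper58.DC.Spec1

/-! Module dq:CL0 of the project of helper58 (MP_baa4d7_al). -/

namespace Pool.Agent.helper32.DC
open Pool.Agent.helper58.DC

section

variable {G E A : Type} [Group G] [Group E] [Group A]

theorem CL0_act_inc (X : Extension G E A) (g : G) : X.act (X.inc g) = MulAut.conj g := by
  refine MulEquiv.ext fun h => ?_
  apply X.inc_injective
  rw [X.act_spec, MulAut.conj_apply]
  simp

theorem CL0_act_conj (X : Extension G E A) (e : E) (g : G) :
    X.act e * MulAut.conj g = MulAut.conj (X.act e g) * X.act e := by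
  refine MulEquiv.ext fun h => ?_
  simp [MulAut.mul_apply, MulAut.conj_apply]

end

theorem CL0 (hPM : PM_stmt) : CL0_stmt := by
  intro G E A _ _ _ _ X p M χ hχ hst
  have hmul : ∀ (α β : MulAut G) (x : Finset (Subgroup G) × (G → ℂ)),
      pairMap (α * β) x = pairMap α (pairMap β x) := fun α β x => (hPM G p M χ x).1 α β
  have hone : ∀ x : Finset (Subgroup G) × (G → ℂ), pairMap (1 : MulAut G) x = x :=
    fun x => (hPM G p M χ x).2.1
  have hlen : ∀ (α : MulAut G) (x : Finset (Subgroup G) × (G → ℂ)),
      len (pairMap α x) = len x := fun α x => (hPM G p M χ x).2.2.1 α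
  have hdfc : ∀ (α : MulAut G) (x : Finset (Subgroup G) × (G → ℂ)),
      dfc p (pairMap α x) = dfc p x := fun α x => (hPM G p M χ x).2.2.2.1 α
  have hpair : ∀ (e : E) (x : Finset (Subgroup G) × (G → ℂ)), IsPair p M χ x →
      IsPair p M χ (pairMap (X.act e) x) := fun e x hx =>
    (hPM G p M χ x).2.2.2.2.1 (X.act e) (hst e) hx
  have hfin : {x : Finset (Subgroup G) × (G → ℂ) | IsPair p M χ x}.Finite :=
    (hPM G p M χ (∅, χ)).2.2.2.2.2.2.2
  -- the set of pairs
  let I : Type := {x : Finset (Subgroup G) × (G → ℂ) // IsPair p M χ x}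
  have hI : Finite I := hfin.to_subtype
  -- the action on pairs
  let actI : E → I → I := fun e x => ⟨pairMap (X.act e) x.1, hpair e x.1 x.2⟩
  let r : Setoid I :=
    { r := fun x y => ∃ g : G, pairMap (MulAut.conj g) x.1 = y.1
      iseqv :=
        { refl := fun x => ⟨1, by rw [map_one, hone]⟩
          symm := by
            rintro x y ⟨g, hg⟩
            refine ⟨g⁻¹, ?_⟩
            rw [← hg, ← hmul, ← map_mul, inv_mul_cancel, map_one, hone]
          trans := by
            rintro x y z ⟨g, hg⟩ ⟨h, hh⟩
            refine ⟨h * g, ?_⟩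
            rw [map_mul, hmul, hg, hh] } }
  have hr : ∀ x y : I, (Quotient.mk r x = Quotient.mk r y) ↔
      ∃ g : G, pairMap (MulAut.conj g) x.1 = y.1 := fun x y => Quotient.eq (r := r)
  let Z : Type := Quotient r
  have hZ : Finite Z := Quotient.finite r
  have hactr : ∀ (e : E) (x y : I), r x y → r (actI e x) (actI e y) := by
    rintro e x y ⟨g, hg⟩
    refine ⟨X.act e g, ?_⟩
    change pairMap (MulAut.conj (X.act e g)) (pairMap (X.act e) x.1) = pairMap (X.act e) y.1
    rw [← hmul, ← CL0_act_conj, hmul, hg]
  let actZ : E → Z → Z := fun e => Quotient.map (actI e) (hactr e)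
  have hactZ : ∀ (e : E) (x : I), actZ e (Quotient.mk r x) = Quotient.mk r (actI e x) :=
    fun e x => rfl
  have hZone : ∀ z : Z, actZ 1 z = z := by
    intro z
    induction z using Quotient.inductionOn with
    | h x =>
      rw [hactZ]
      congr 1
      apply Subtype.ext
      change pairMap (X.act 1) x.1 = x.1
      rw [map_one, hone]
  have hZmul : ∀ (e f : E) (z : Z), actZ (e * f) z = actZ e (actZ f z) := by
    intro e f z
    induction z using Quotient.inductionOn with
    | h x =>
      rw [hactZ, hactZ, hactZ]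
      congr 1
      apply Subtype.ext
      change pairMap (X.act (e * f)) x.1 = pairMap (X.act e) (pairMap (X.act f) x.1)
      rw [map_mul, hmul]
  let homEnd : E →* Function.End Z :=
    { toFun := actZ
      map_one' := funext hZone
      map_mul' := fun e f => funext (hZmul e f) }
  let homE : E →* Equiv.Perm Z := MonoidHom.toHomPerm homEnd
  have homE_apply : ∀ (e : E) (z : Z), homE e z = actZ e z := fun e z => rfl
  have hker : X.proj.ker ≤ homE.ker := by
    intro e he
    rw [MonoidHom.mem_ker] at he ⊢
    obtain ⟨g, rfl⟩ := (X.exact e).1 he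
    refine Equiv.ext fun z => ?_
    rw [homE_apply, Equiv.Perm.one_apply]
    induction z using Quotient.inductionOn with
    | h x =>
      rw [hactZ]
      symm
      apply Quotient.sound
      refine ⟨g, ?_⟩
      change _ = pairMap (X.act (X.inc g)) x.1
      rw [CL0_act_inc]
  let homA : A →* Equiv.Perm Z := X.proj.liftOfSurjective X.proj_surjective ⟨homE, hker⟩
  have homA_apply : ∀ e : E, homA (X.proj e) = homE e := fun e =>
    MonoidHom.liftOfRightInverse_comp_apply _ _ _ ⟨homE, hker⟩ e
  let lenZ : Z → ℕ := Quotient.lift (fun x : I => len x.1) (by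
    rintro x y ⟨g, hg⟩
    change len x.1 = len y.1
    rw [← hg, hlen])
  have lenZ_mk : ∀ x : I, lenZ (Quotient.mk r x) = len x.1 := fun x => rfl
  let dfcZ : Z → ℤ := Quotient.lift (fun x : I => dfc p x.1) (by
    rintro x y ⟨g, hg⟩
    change dfc p x.1 = dfc p y.1
    rw [← hg, hdfc])
  have dfcZ_mk : ∀ x : I, dfcZ (Quotient.mk r x) = dfc p x.1 := fun x => rfl
  refine ⟨⟨Z, hZ, homA, lenZ, dfcZ, ?_, ?_⟩, fun x => Quotient.mk r x, ?_, ?_, ?_, ?_, ?_⟩
  · intro a z
    obtain ⟨e, rfl⟩ := X.proj_surjective a
    rw [homA_apply, homE_apply]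
    induction z using Quotient.inductionOn with
    | h x =>
      rw [hactZ, lenZ_mk, lenZ_mk]
      exact hlen _ _
  · intro a z
    obtain ⟨e, rfl⟩ := X.proj_surjective a
    rw [homA_apply, homE_apply]
    induction z using Quotient.inductionOn with
    | h x =>
      rw [hactZ, dfcZ_mk, dfcZ_mk]
      exact hdfc _ _
  · intro z
    induction z using Quotient.inductionOn with
    | h x => exact ⟨x, rfl⟩
  · intro x y
    exact hr x y
  · intro x
    exact lenZ_mk x
  · intro x
    exact dfcZ_mk x
  · intro e x y hxy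
    change homA (X.proj e) (Quotient.mk r x) = Quotient.mk r y
    rw [homA_apply, homE_apply, hactZ]
    congr 1
    apply Subtype.ext
    exact hxy

end Pool.Agent.helper32.DC
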