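import Pool.Agent.helper58.DC.Spec1

/-! Module dq:IP of the project of helper58 (MP_baa4d7_al). -/

namespace Pool.Agent.helper32.DC
open Pool.Agent.helper58.DC

theorem IP_omega_one {G : Type} [Group G] {ψ : G → ℂ} (h : ψ 1 ≠ 0) : omega ψ 1 = 1 := by
  unfold omega
  have h1 : conjugatesOf (1 : G) = {1} := by
    ext x
    change IsConj (1 : G) x ↔ x = 1
    exact isConj_one_right
  rw [h1]
  have h2 : (∑ᶠ x ∈ ({1} : Set G), ψ x) = ψ 1 := finsum_mem_singleton
  rw [h2, div_self h]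

theorem IP (hOP : OP_stmt) (hOI : OI_stmt) (hIF : IF_stmt) (hIRF : IRF_stmt) (hTI : TI_stmt) :
    IP_stmt := by
  classical
  intro G T _ _ _ M H ψ χ hψ hχ
  have ha : ∀ t g, IsIntegral ℤ (omega (ψ t) g) := fun t g => hOI G (H t) (ψ t) (hψ t) g
  have hb : ∀ t g, IsIntegral ℤ (omega (χ t) g) := fun t g =>
    hOI G ⊤ (χ t) ((hTI G (χ t)).2 (hχ t)) g
  have hψ1 : ∀ t, omega (ψ t) 1 = 1 := by
    intro t
    apply IP_omega_one
    obtain ⟨n, hn, h⟩ := ((hIF G (H t)).2 (ψ t) (hψ t)).1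
    rw [h]
    exact_mod_cast hn.ne'
  have hχ1 : ∀ t, omega (χ t) 1 = 1 := by
    intro t
    apply IP_omega_one
    obtain ⟨n, hn, h⟩ := ((hIRF G).2 (χ t) (hχ t)).1
    rw [h]
    exact_mod_cast hn.ne'
  constructor
  · intro h t g
    obtain ⟨a, haM, hae⟩ := h (Pi.mulSingle t g)
    refine ⟨a, haM, ?_⟩
    rw [← hae, hOP, hOP]
    have e1 : ∀ (φ : T → G → ℂ), (∀ t, omega (φ t) 1 = 1) →
        ∏ s, omega (φ s) ((Pi.mulSingle t g : T → G) s) = omega (φ t) g := by
      intro φ hφ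
      rw [Finset.prod_eq_single t]
      · rw [Pi.mulSingle_eq_same]
      · intro s _ hs
        rw [Pi.mulSingle_eq_of_ne hs, hφ]
      · intro hs
        exact absurd (Finset.mem_univ t) hs
    rw [e1 ψ hψ1, e1 χ hχ1]
  · intro h x
    choose a haM hae using fun t => h t (x t)
    let A : T → integralClosure ℤ ℂ := fun t => ⟨omega (ψ t) (x t), ha t (x t)⟩
    let B : T → integralClosure ℤ ℂ := fun t => ⟨omega (χ t) (x t), hb t (x t)⟩
    have hAB : ∀ t, A t - B t ∈ M := by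
      intro t
      have : A t - B t = a t := Subtype.ext (hae t)
      rw [this]
      exact haM t
    have hprod : (∏ t, A t) - (∏ t, B t) ∈ M := by
      rw [← Ideal.Quotient.mk_eq_mk_iff_sub_mem, map_prod, map_prod]
      exact Finset.prod_congr rfl fun t _ => (Ideal.Quotient.mk_eq_mk_iff_sub_mem _ _).2 (hAB t)
    refine ⟨(∏ t, A t) - (∏ t, B t), hprod, ?_⟩
    rw [hOP, hOP]
    have e1 : ((∏ t, A t : integralClosure ℤ ℂ) : ℂ) = ∏ t, omega (ψ t) (x t) := by
      rw [← Subalgebra.coe_val, map_prod]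
      rfl
    have e2 : ((∏ t, B t : integralClosure ℤ ℂ) : ℂ) = ∏ t, omega (χ t) (x t) := by
      rw [← Subalgebra.coe_val, map_prod]
      rfl
    rw [← e1, ← e2]
    rfl

end Pool.Agent.helper32.DC
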