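import Pool.Agent.helper58.DC.Spec2

/-! Module dq:WQ of the project of helper58 (MP_baa4d7_al). -/

namespace Pool.Agent.helper32.DC
open Pool.Agent.helper58.DC

/-- The projection of the wreath product. -/
def WQ_phi (A : Type) [Group A] (n : ℕ) : Wr A n →* Equiv.Perm (Fin n) where
  toFun x := x.σ
  map_one' := rfl
  map_mul' _ _ := rfl

theorem WQ_phi_surj (A : Type) [Group A] (n : ℕ) : Function.Surjective (WQ_phi A n) :=
  fun s => ⟨⟨s, fun _ => 1⟩, rfl⟩

theorem WQ_ker (A : Type) [Group A] (n : ℕ) :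
    (WQ_phi A n).ker = wrU A (⊥ : Subgroup (Equiv.Perm (Fin n))) := by
  ext x
  rw [MonoidHom.mem_ker]
  exact Iff.rfl

theorem WQ : WQ_stmt := by
  intro A _ n
  refine ⟨?_, ?_, ?_⟩
  · rw [← WQ_ker]
    infer_instance
  · intro h
    exact ⟨(QuotientGroup.quotientMulEquivOfEq (WQ_ker A n).symm).trans
      (QuotientGroup.quotientKerEquivOfSurjective (WQ_phi A n) (WQ_phi_surj A n))⟩
  · intro hA
    refine Finite.of_injective (fun x : Wr A n => (x.σ, x.a)) ?_
    intro x y hxy
    have h1 := congrArg Prod.fst hxy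
    have h2 := congrArg Prod.snd hxy
    exact Wr.ext h1 h2

end Pool.Agent.helper32.DC
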